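import Pool.Agent.H.MP_7aa09c_an.Main

namespace Pool.Agent.H.MP_ace873_an

open Filter Topology Finset
open Pool.Agent.Lib.helper22.Lind (C0)

noncomputable def a (j : ℕ) : ℝ := (1 / 2) ^ (j + 2)

lemma a_pos (j : ℕ) : 0 < a j := by unfold a; positivity

lemma a_anti {i j : ℕ} (h : i ≤ j) : a j ≤ a i :=
  pow_le_pow_of_le_one (by norm_num) (by norm_num) (by omega)

lemma a_le (j : ℕ) : a j ≤ 1 / 4 := (a_anti (Nat.zero_le j)).trans (by norm_num [a])

lemma sum_a (s : Finset ℕ) : ∑ j ∈ s, a j ≤ 1 / 2 := by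
  have h : HasSum a (1 / 2) := by
    have e : a = fun i => (1 / 2 : ℝ) ^ i * (1 / 4) := by
      ext j; unfold a; rw [pow_add]; norm_num
    rw [e, show (1 / 2 : ℝ) = 2 * (1 / 4) by norm_num]
    have := hasSum_geometric_two.mul_right (1 / 4)
    rwa [show (1 / 2 : ℝ) = 2 * (1 / 4) by norm_num] at this
  exact sum_le_hasSum s (fun j _ => (a_pos j).le) h

noncomputable def q (D : ℕ → ℝ) (k : ℕ) : ℝ := ∑ j ∈ range k, a j * D j + D k

lemma sum_le (D : ℕ → ℝ) (s : Finset ℕ) (r : ℝ) (hr : 0 ≤ r) (h : ∀ j ∈ s, D j ≤ r) :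
    ∑ j ∈ s, a j * D j ≤ r / 2 := by
  refine (sum_le_sum fun j hj => mul_le_mul_of_nonneg_left (h j hj) (a_pos j).le).trans ?_
  rw [← sum_mul]
  nlinarith [sum_a s]

lemma gap (D : ℕ → ℝ) (M : ℝ) (hM : 0 < M) (i J0 J : ℕ) (hi : i < J0) (hJ : J0 ≤ J)
    (h1 : M / 2 ≤ |D i|) (h2 : ∀ j, J ≤ j → |D j| ≤ a J0 / 8 * M) (k : ℕ) (hk : J ≤ k) :
    q D k ≤ 0 ∨ ∃ m < J, q D k ≤ q D m := by
  set η := a J0 / 8 with hη
  have hη0 : 0 < η := by have := a_pos J0; positivity
  have hη1 : η ≤ 1 / 32 := by have := a_le J0; linarith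
  have e1 : q D k ≤ ∑ j ∈ range J, a j * D j + 2 * (η * M) := by
    rw [q, ← sum_range_add_sum_Ico _ hk]
    have b1 := sum_le D (Ico J k) (η * M) (by positivity)
      fun j hj => (le_abs_self _).trans (h2 j (mem_Ico.1 hj).1)
    have b2 := (le_abs_self _).trans (h2 k hk)
    nlinarith [mul_pos hη0 hM]
  obtain ⟨m, hm, hm2⟩ := exists_max_image (range J) D ⟨i, mem_range.2 (by omega)⟩
  rcases le_or_gt (4 * (η * M)) (D m) with c | c
  · refine Or.inr ⟨m, mem_range.1 hm, e1.trans ?_⟩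
    rw [q, ← sum_range_add_sum_Ico _ (mem_range.1 hm).le]
    have b1 := sum_le D (Ico m J) (D m) (le_trans (by positivity) c)
      fun j hj => hm2 j (mem_range.2 (mem_Ico.1 hj).2)
    linarith
  · refine Or.inl (e1.trans ?_)
    have hiJ : i ∈ range J := mem_range.2 (by omega)
    have b1 : D i ≤ -(M / 2) := by
      have := hm2 i hiJ
      rcases le_abs'.1 h1 with d | d
      · exact d
      · nlinarith
    rw [← add_sum_erase _ _ hiJ]
    have b2 := sum_le D ((range J).erase i) (4 * (η * M)) (by positivity)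
      fun j hj => (hm2 j (mem_of_mem_erase hj)).trans c.le
    have b3 := mul_le_mul_of_nonneg_left b1 (a_pos i).le
    have b4 := a_anti hi.le
    nlinarith

def C1 : Type := C0
noncomputable instance : NormedAddCommGroup C1 := inferInstanceAs (NormedAddCommGroup C0)
noncomputable instance : NormedSpace ℝ C1 := inferInstanceAs (NormedSpace ℝ C0)
instance : CompleteSpace C1 := inferInstanceAs (CompleteSpace C0)
def c0 (z : C1) : C0 := z
def cf (z : C1) (n : ℕ) : ℝ := c0 z n
instance : CoeFun C1 fun _ => ℕ → ℝ := ⟨cf⟩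
lemma co (z : C1) (n : ℕ) : |z n| ≤ ‖z‖ := Lib.helper22.Lind.co (c0 z) n
lemma nle (x : C1) {r : ℝ} (hr : 0 ≤ r) (h : ∀ n, |x n| ≤ r) : ‖x‖ ≤ r :=
  Lib.helper22.Lind.nle (c0 x) hr h
noncomputable def ev (n : ℕ) : C1 →L[ℝ] ℝ := MP_7aa09c_an.ev n
lemma lim (z : C1) : Tendsto z atTop (𝓝 0) := by
  have := zero_at_infty (c0 z)
  rwa [cocompact_eq_atTop] at this
lemma cz (n : ℕ) : (0 : C1) n = 0 := rfl
lemma cext {x y : C1} (h : ∀ n, x n = y n) : x = y := ZeroAtInftyContinuousMap.ext h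

noncomputable def D (z : C1) (j : ℕ) : ℝ := |z (j + 1)| - a j * |z 0|

lemma cpt (V : Submodule ℝ C1) [FiniteDimensional ℝ V] (Q : ℕ → C1 → Prop)
    (mono : ∀ J J' z, J ≤ J' → Q J z → Q J' z) (sc : ∀ J z (c : ℝ), Q J z → Q J (c • z))
    (loc : ∀ v : V, ‖v‖ = 1 → ∃ U ∈ 𝓝 v, ∃ J, ∀ u ∈ U, ‖u‖ = 1 → Q J u) (h0 : Q 0 0) :
    ∃ J, ∀ u ∈ V, Q J u := by
  have : ProperSpace V := FiniteDimensional.proper ℝ V
  have h := (isCompact_sphere (0 : V) 1).induction_on
    (p := fun s => ∃ J, ∀ u ∈ s, ‖u‖ = 1 → Q J u) ⟨0, by simp⟩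
    (fun s t hst ⟨J, h⟩ => ⟨J, fun u hu => h u (hst hu)⟩)
    (fun s t ⟨J, h⟩ ⟨J', h'⟩ => ⟨max J J', fun u hu h1 => hu.elim
      (fun c => mono _ _ _ (le_max_left _ _) (h u c h1))
      (fun c => mono _ _ _ (le_max_right _ _) (h' u c h1))⟩)
    (fun v hv => by
      obtain ⟨U, h1, h2⟩ := loc v (mem_sphere_zero_iff_norm.1 hv)
      exact ⟨U, mem_nhdsWithin_of_mem_nhds h1, h2⟩)
  obtain ⟨J, hJ⟩ := h
  refine ⟨J, fun u hu => ?_⟩
  rcases eq_or_ne (⟨u, hu⟩ : V) 0 with c | c
  · rw [show u = 0 from congrArg Subtype.val c]; exact mono _ _ _ (Nat.zero_le _) h0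
  · set v : V := ⟨u, hu⟩ with hv
    have hp : ‖v‖ ≠ 0 := norm_ne_zero_iff.2 c
    have h1 : ‖‖v‖⁻¹ • v‖ = 1 := by rw [norm_smul, norm_inv, norm_norm, inv_mul_cancel₀ hp]
    have h2 := sc J _ ‖v‖ (hJ _ (mem_sphere_zero_iff_norm.2 h1) h1)
    have h3 : ‖v‖ • ((‖v‖⁻¹ • v : V) : C1) = u :=
      congrArg Subtype.val (show ‖v‖ • ‖v‖⁻¹ • v = v by rw [smul_smul, mul_inv_cancel₀ hp, one_smul])
    rwa [h3] at h2

lemma nsm (c : ℝ) (z : C1) : ‖c • z‖ = |c| * ‖z‖ := norm_smul c z

lemma tail0 (V : Submodule ℝ C1) [FiniteDimensional ℝ V] (ε : ℝ) (hε : 0 < ε) :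
    ∃ J, ∀ u ∈ V, ∀ j, J ≤ j → |u j| ≤ ε * ‖u‖ := by
  refine cpt V (fun J u => ∀ j, J ≤ j → |u j| ≤ ε * ‖u‖) (fun J J' z h h' j hj => h' j (h.trans hj))
    (fun J z c h j hj => ?_) (fun v _ => ?_) (fun j _ => by simp [cz])
  · show |c * z j| ≤ _
    rw [abs_mul, nsm, mul_left_comm]
    exact mul_le_mul_of_nonneg_left (h j hj) (abs_nonneg _)
  · have := (lim v.1).abs.eventually (gt_mem_nhds (by simpa : |(0 : ℝ)| < ε / 2))
    obtain ⟨J, hJ⟩ := eventually_atTop.1 this
    refine ⟨_, Metric.ball_mem_nhds v (half_pos hε), J, fun u hu h1 j hj => ?_⟩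
    have h2 : |u.1 j - v.1 j| ≤ ‖u - v‖ := co (u.1 - v.1) j
    rw [mem_ball_iff_norm] at hu
    have h3 := abs_sub_abs_le_abs_sub (u.1 j) (v.1 j)
    have h4 := hJ j hj
    rw [show ‖u.1‖ = 1 from h1]
    linarith

lemma D_smul (c : ℝ) (z : C1) (j : ℕ) : D (c • z) j = |c| * D z j := by
  show |c * z (j + 1)| - a j * |c * z 0| = _
  rw [abs_mul, abs_mul, D]; ring

lemma evc (V : Submodule ℝ C1) (j : ℕ) : Continuous fun u : V => u.1 j :=
  (ev j).continuous.comp continuous_subtype_val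

lemma tail (V : Submodule ℝ C1) [FiniteDimensional ℝ V] (η : ℝ) (hη : 0 < η) :
    ∃ J, ∀ u ∈ V, ∀ M, (∀ i, |D u i| ≤ M) → ∀ j, J ≤ j → |D u j| ≤ η * M := by
  refine cpt V (fun J u => ∀ M, (∀ i, |D u i| ≤ M) → ∀ j, J ≤ j → |D u j| ≤ η * M)
    (fun J J' z h h' M hM j hj => h' M hM j (h.trans hj)) (fun J z c h M hM j hj => ?_)
    (fun v hv => ?_) (fun M hM j _ => ?_)
  · rcases eq_or_ne c 0 with rfl | hc
    · rw [D_smul, abs_zero, zero_mul, abs_zero]
      exact mul_nonneg hη.le ((abs_nonneg _).trans (hM 0))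
    · have hp : 0 < |c| := abs_pos.2 hc
      have := h (M / |c|) (fun i => by
        have := hM i
        rwa [D_smul, abs_mul, abs_abs, mul_comm, ← le_div_iff₀ hp] at this) j hj
      rw [D_smul, abs_mul, abs_abs, mul_comm, ← le_div_iff₀ hp, mul_div_assoc]
      exact this
  · by_cases c : ∀ i, D v.1 i = 0
    · have h0 : v.1 0 ≠ 0 := fun h => by
        have : ‖v.1‖ ≤ 0 := nle _ le_rfl fun n => by
          rcases n with _ | n
          · rw [h, abs_zero]
          · have := c n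
            rw [D, h, abs_zero, mul_zero, sub_zero] at this
            exact this.le
        have h1 : ‖v.1‖ = 1 := hv
        linarith
      obtain ⟨J1, h1⟩ := tail0 V (1 / 2) (by norm_num)
      obtain ⟨J2, h2⟩ := tail0 V (η / 2) (by positivity)
      have hc : Continuous fun u : V => u.1 0 / v.1 0 := (evc V 0).div_const _
      have ho : IsOpen {u : V | ‖u - (u.1 0 / v.1 0) • v‖ < |u.1 0| * a J1} :=
        isOpen_lt (continuous_id.sub (hc.smul continuous_const)).norm
          ((evc V 0).abs.mul continuous_const)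
      refine ⟨_, ho.mem_nhds ?_, J2, fun u hu _ M hM j hj => ?_⟩
      · show ‖v - (v.1 0 / v.1 0) • v‖ < |v.1 0| * a J1
        rw [div_self h0, one_smul, sub_self, norm_zero]
        exact mul_pos (abs_pos.2 h0) (a_pos _)
      · set t := u.1 0 / v.1 0 with ht
        set r : V := u - t • v with hr
        have hu' : ‖r.1‖ < |u.1 0| * a J1 := hu
        have e1 : ∀ i, u.1 i = t * v.1 i + r.1 i := fun i => by
          show _ = _ + (u.1 i - t * v.1 i); ring
        have e0 : t * v.1 0 = u.1 0 := div_mul_cancel₀ _ h0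
        have e2 : ∀ i, |t * v.1 (i + 1)| = a i * |u.1 0| := fun i => by
          have := c i
          rw [D, sub_eq_zero] at this
          rw [abs_mul, this, ← e0, abs_mul]; ring
        have e3 : ∀ i, D u.1 i = |t * v.1 (i + 1) + r.1 (i + 1)| - |t * v.1 (i + 1)| := fun i => by
          rw [D, e2, ← e1]
        have b1 : ‖r.1‖ ≤ 2 * M := by
          have hM0 : 0 ≤ M := (abs_nonneg _).trans (hM 0)
          by_contra c2
          push Not at c2
          have : ‖r.1‖ ≤ 1 / 2 * ‖r.1‖ := nle _ (by positivity) fun n => by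
            rcases le_or_gt J1 n with d | d
            · exact h1 _ r.2 n d
            · rcases n with _ | n
              · have := e1 0
                rw [show r.1 0 = 0 by linarith, abs_zero]; positivity
              · have d1 := hM n
                have d2 : |r.1 (n + 1)| < |t * v.1 (n + 1)| := by
                  rw [e2, mul_comm]
                  exact ((co _ _).trans_lt hu').trans_le
                    (mul_le_mul_of_nonneg_left (a_anti (by omega)) (abs_nonneg _))
                rw [e3] at d1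
                have d3 : |r.1 (n + 1)| ≤ M := by
                  generalize t * v.1 (n + 1) = x at d1 d2
                  generalize r.1 (n + 1) = y at d1 d2
                  rw [abs_le] at d1 ⊢
                  cases abs_cases x <;> cases abs_cases y <;> cases abs_cases (x + y) <;>
                    constructor <;> linarith
                linarith
          linarith
        have b2 : |D u.1 j| ≤ |r.1 (j + 1)| := by
          rw [e3]
          simpa using abs_abs_sub_abs_le_abs_sub (t * v.1 (j + 1) + r.1 (j + 1)) (t * v.1 (j + 1))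
        have b3 := h2 _ r.2 (j + 1) (by omega)
        nlinarith
    · push Not at c
      obtain ⟨i, hi⟩ := c
      set δ := |D v.1 i| / 2 with hδ
      have hδ0 : 0 < δ := half_pos (abs_pos.2 hi)
      have ho : IsOpen {u : V | δ < |D u.1 i|} := isOpen_lt continuous_const
        ((evc V _).abs.sub (continuous_const.mul (evc V 0).abs)).abs
      obtain ⟨J2, h2⟩ := tail0 V (η * δ) (by positivity)
      obtain ⟨J3, h3⟩ := exists_pow_lt_of_lt_one (mul_pos hη hδ0) (by norm_num : (1 / 2 : ℝ) < 1)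
      refine ⟨_, ho.mem_nhds (show δ < _ by linarith), max J2 J3, fun u hu h1 M hM j hj => ?_⟩
      have b1 := h2 _ u.2 (j + 1) (by omega)
      have b2 := co u.1 0
      rw [show ‖u.1‖ = 1 from h1] at b1 b2
      have b3 : a j ≤ (1 / 2) ^ J3 := pow_le_pow_of_le_one (by norm_num) (by norm_num) (by omega)
      have b4 := mul_le_mul_of_nonneg_left ((le_of_lt hu).trans (hM i)) hη.le
      have b5 := mul_le_mul_of_nonneg_left b2 (a_pos j).le
      have b6 := mul_nonneg (a_pos j).le (abs_nonneg (u.1 0))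
      have b7 := abs_nonneg (u.1 (j + 1))
      rw [D, abs_le]
      constructor <;> linarith
  · rw [show D 0 j = 0 by simp [D, cz], abs_zero]
    exact mul_nonneg hη.le ((abs_nonneg _).trans (hM 0))

noncomputable def w : ℕ → ℕ → ℝ
  | 0, _ => 1
  | k + 1, 0 => 1 - ∑ j ∈ range k, a j * a j - a k
  | k + 1, j + 1 => if j < k then a j else 1

lemma w_nonneg : ∀ k j, 0 ≤ w k j
  | 0, _ => zero_le_one
  | k + 1, 0 => by
    have := sum_le a (range k) (1 / 4) (by norm_num) fun j _ => a_le j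
    have := a_le k
    rw [w]; linarith
  | k + 1, j + 1 => by rw [w]; split_ifs; exacts [(a_pos j).le, zero_le_one]

noncomputable def P (k : ℕ) (z : C1) : ℝ := ∑ j ∈ range (k + 1), w k j * |z j|

lemma P_zero (z : C1) : P 0 z = |z 0| := by simp [P, w]

lemma P_succ (k : ℕ) (z : C1) : P (k + 1) z = |z 0| + q (D z) k := by
  rw [P, sum_range_succ', sum_range_succ, q, w, w, if_neg (lt_irrefl k),
    sum_congr rfl (g := fun j => a j * |z (j + 1)|) fun j hj => by rw [w, if_pos (mem_range.1 hj)]]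
  simp only [D, mul_sub, sum_sub_distrib, ← mul_assoc, ← sum_mul]
  ring

lemma D_le (z : C1) (j : ℕ) : D z j ≤ ‖z‖ :=
  (sub_le_self _ (mul_nonneg (a_pos j).le (abs_nonneg _))).trans (co z _)

lemma P_le (k : ℕ) (z : C1) : P k z ≤ 3 * ‖z‖ := by
  have h0 := co z 0
  have h1 := norm_nonneg z
  rcases k with _ | k
  · rw [P_zero]; linarith
  · have := sum_le (D z) (range k) ‖z‖ h1 fun j _ => D_le z j
    have := D_le z k
    rw [P_succ, q]; linarith

lemma le_P (k : ℕ) (z : C1) : |z k| ≤ P k z := by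
  have := single_le_sum (f := fun j => w k j * |z j|)
    (fun j _ => mul_nonneg (w_nonneg k j) (abs_nonneg _)) (self_mem_range_succ k)
  refine le_trans (le_of_eq ?_) this
  rcases k with _ | k <;> simp [w]

noncomputable def N (z : C1) : ℝ := ⨆ k, P k z

lemma P_le_N (k : ℕ) (z : C1) : P k z ≤ N z :=
  le_ciSup (f := fun k => P k z) ⟨3 * ‖z‖, by rintro _ ⟨k, rfl⟩; exact P_le k z⟩ k

lemma N_le {z : C1} {r : ℝ} (h : ∀ k, P k z ≤ r) : N z ≤ r := ciSup_le h

lemma N_nonneg (z : C1) : 0 ≤ N z := (abs_nonneg _).trans ((le_P 0 z).trans (P_le_N 0 z))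

lemma le_N (z : C1) : ‖z‖ ≤ N z := nle _ (N_nonneg z) fun k => (le_P k z).trans (P_le_N k z)

lemma N_smul (c : ℝ) (z : C1) : N (c • z) ≤ |c| * N z := N_le fun k => by
  refine le_trans (le_of_eq ?_) (mul_le_mul_of_nonneg_left (P_le_N k z) (abs_nonneg c))
  rw [P, P, mul_sum]
  refine sum_congr rfl fun j _ => ?_
  show _ * |c * z j| = _
  rw [abs_mul]; ring

def Y : Type := C1
noncomputable instance : AddCommGroup Y := inferInstanceAs (AddCommGroup C1)
noncomputable instance : Module ℝ Y := inferInstanceAs (Module ℝ C1)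
def toC (y : Y) : C1 := y

noncomputable instance : NormedAddCommGroup Y := AddGroupNorm.toNormedAddCommGroup
  { toFun := fun y => N (toC y)
    map_zero' := le_antisymm (N_le fun k => (P_le k _).trans_eq (by
      show 3 * ‖(0 : C1)‖ = 0; simp)) (N_nonneg _)
    add_le' := fun x y => N_le fun k => by
      refine le_trans ?_ (add_le_add (P_le_N k _) (P_le_N k _))
      rw [P, P, P, ← sum_add_distrib]
      refine sum_le_sum fun j _ => ?_
      rw [← mul_add]
      exact mul_le_mul_of_nonneg_left (abs_add_le (toC x j) (toC y j)) (w_nonneg k j)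
    neg' := fun x => congrArg iSup (funext fun k => sum_congr rfl fun j _ =>
      congrArg (w k j * ·) (abs_neg (toC x j)))
    eq_zero_of_map_eq_zero' := fun x h => norm_le_zero_iff.1 ((le_N (toC x)).trans_eq h) }

noncomputable instance : NormedSpace ℝ Y := ⟨fun c y => N_smul c (toC y)⟩

lemma Y_norm (y : Y) : ‖y‖ = N (toC y) := rfl

noncomputable def eqv : Y ≃L[ℝ] C1 :=
  LinearEquiv.toContinuousLinearEquivOfBounds (LinearEquiv.refl ℝ C1 : Y ≃ₗ[ℝ] C1) 1 3
    (fun y => by rw [one_mul]; exact le_N (toC y)) (fun z => N_le fun k => P_le k z)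

instance : CompleteSpace Y := (completeSpace_congr (e := eqv.toEquiv) eqv.isUniformEmbedding).2
  inferInstance

lemma finP (V : Submodule ℝ C1) [FiniteDimensional ℝ V] :
    ∃ K, ∀ u ∈ V, ∃ k ≤ K, N u = P k u := by
  obtain ⟨J0, h0⟩ := tail V (1 / 4) (by norm_num)
  obtain ⟨J, h1⟩ := tail V (a J0 / 8) (by have := a_pos J0; positivity)
  refine ⟨max J0 J, fun u hu => ?_⟩
  obtain ⟨m, hm, hm2⟩ := exists_max_image (range (max J0 J + 1)) (fun k => P k u) ⟨0, by simp⟩
  refine ⟨m, Nat.lt_succ_iff.1 (mem_range.1 hm), le_antisymm (N_le fun k => ?_) (P_le_N m u)⟩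
  rcases le_or_gt k (max J0 J) with c | c
  · exact hm2 k (mem_range.2 (by omega))
  obtain ⟨k, rfl⟩ : ∃ l, k = l + 1 := ⟨k - 1, by omega⟩
  have hb : BddAbove (Set.range fun i => |D u i|) := ⟨2 * ‖u‖, by
    rintro _ ⟨i, rfl⟩
    have b1 := co u (i + 1)
    have b2 := mul_le_mul (a_le i) (co u 0) (abs_nonneg _) (by norm_num)
    have b3 := mul_nonneg (a_pos i).le (abs_nonneg (u 0))
    have b4 := abs_nonneg (u (i + 1))
    show |D u i| ≤ _
    rw [D, abs_le]; constructor <;> linarith⟩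
  set M := ⨆ i, |D u i| with hM
  have hM1 : ∀ i, |D u i| ≤ M := fun i => le_ciSup hb i
  have z0 : q (D u) k ≤ 0 → P (k + 1) u ≤ P m u := fun h => by
    have := hm2 0 (by simp)
    rw [P_zero] at this
    rw [P_succ]; linarith
  rcases ((abs_nonneg _).trans (hM1 0)).eq_or_lt with d | d
  · have : ∀ i, D u i = 0 := fun i => abs_nonpos_iff.1 ((hM1 i).trans d.ge)
    exact z0 (by simp [q, this])
  · obtain ⟨i, hi⟩ := exists_lt_of_lt_ciSup (show M / 2 < ⨆ i, |D u i| by linarith)
    have hi2 : i < J0 := by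
      by_contra c2
      have := h0 u hu M hM1 i (not_lt.1 c2)
      linarith
    rcases gap (D u) M d i J0 (max J0 J) hi2 (le_max_left _ _) hi.le
      (fun j hj => h1 u hu M hM1 j ((le_max_right _ _).trans hj)) k (by omega) with e | ⟨l, e1, e2⟩
    · exact z0 e
    · have := hm2 (l + 1) (mem_range.2 (by omega))
      rw [P_succ] at this ⊢
      linarith

lemma poly {V : Type} [NormedAddCommGroup V] [NormedSpace ℝ V] [FiniteDimensional ℝ V]
    (Φ : Set (V →ₗ[ℝ] ℝ)) (hΦ : Φ.Finite) (h2 : ∀ z, ∃ g ∈ Φ, ‖z‖ ≤ g z) :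
    (∀ g ∈ Φ, ∀ z, g z ≤ ‖z‖) → ∃ S : Finset V, Metric.closedBall (0 : V) 1 = convexHull ℝ (S : Set V) := by
  intro h1
  have : ProperSpace V := FiniteDimensional.proper ℝ V
  have key : ∀ x ∈ (Metric.closedBall (0 : V) 1).extremePoints ℝ, ∀ v,
      (∀ g ∈ Φ, g x = 1 → g v = 0) → v = 0 := by
    intro x hx v hv
    have hx1 := mem_closedBall_zero_iff.1 hx.1
    have e : ∀ᶠ t : ℝ in 𝓝 0, ∀ g ∈ Φ, g (x + t • v) ≤ 1 := by
      refine (eventually_all_finite hΦ).2 fun g hg => ?_
      rcases ((h1 g hg x).trans hx1).eq_or_lt with c | c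
      · exact Eventually.of_forall fun t => by rw [map_add, map_smul, hv g hg c, c]; simp
      · have : Tendsto (fun t : ℝ => g x + t * g v) (𝓝 0) (𝓝 (g x + 0 * g v)) :=
          (by fun_prop : Continuous fun t : ℝ => g x + t * g v).tendsto 0
        rw [zero_mul, add_zero] at this
        filter_upwards [this.eventually (ge_mem_nhds c)] with t ht
        rwa [map_add, map_smul]
    obtain ⟨ε, hε, h⟩ := Metric.eventually_nhds_iff.1 e
    have m : ∀ t : ℝ, |t| < ε → x + t • v ∈ Metric.closedBall (0 : V) 1 := fun t ht => by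
      obtain ⟨g, g1, g2⟩ := h2 (x + t • v)
      exact mem_closedBall_zero_iff.2 (g2.trans (h (by simpa using ht) g g1))
    have := hx.2 (m (ε / 2) (by rw [abs_of_pos] <;> linarith))
      (m (-(ε / 2)) (by rw [abs_neg, abs_of_pos] <;> linarith))
      ⟨1 / 2, 1 / 2, by norm_num, by norm_num, by norm_num, by module⟩
    simpa [hε.ne'] using this
  have hf : ((Metric.closedBall (0 : V) 1).extremePoints ℝ).Finite := by
    refine Set.Finite.of_finite_image (f := fun x => {g ∈ Φ | g x = 1})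
      (hΦ.finite_subsets.subset ?_) fun x hx y hy h => sub_eq_zero.1 (key x hx _ fun g hg c => ?_)
    · rintro _ ⟨x, -, rfl⟩
      exact Set.sep_subset _ _
    · have : g ∈ {g ∈ Φ | g y = 1} := by
        rw [← show {g ∈ Φ | g x = 1} = {g ∈ Φ | g y = 1} from h]; exact ⟨hg, c⟩
      rw [map_sub, c, this.2, sub_self]
  refine ⟨hf.toFinset, ?_⟩
  rw [hf.coe_toFinset, ← (hf.isClosed_convexHull ℝ).closure_eq,
    closure_convexHull_extremePoints (isCompact_closedBall 0 1) (convex_closedBall 0 1)]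

noncomputable def g (k : ℕ) (s : Finset ℕ) : C1 →ₗ[ℝ] ℝ :=
  ∑ j ∈ range (k + 1), (w k j * if j ∈ s then 1 else -1) • (ev j).toLinearMap

lemma g_app (k : ℕ) (s : Finset ℕ) (z : C1) :
    g k s z = ∑ j ∈ range (k + 1), w k j * ((if j ∈ s then 1 else -1) * z j) := by
  rw [g, LinearMap.sum_apply]
  exact sum_congr rfl fun j _ => mul_assoc _ _ _

lemma polyY (V : Submodule ℝ Y) [h : FiniteDimensional ℝ V] :
    ∃ S : Finset V, Metric.closedBall (0 : V) 1 = convexHull ℝ (S : Set V) := by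
  obtain ⟨K, hK⟩ := @finP V h
  refine poly ((fun p : ℕ × Finset ℕ => (g p.1 p.2).comp V.subtype) ''
    (range (K + 1) ×ˢ (range (K + 1)).powerset : Finset _)) ((finite_toSet _).image _) (fun z => ?_) ?_
  · obtain ⟨k, hk, e⟩ := hK z.1 z.2
    refine ⟨_, ⟨(k, (range (K + 1)).filter fun j => 0 ≤ toC z.1 j), ?_, rfl⟩, ?_⟩
    · simp only [coe_product, Set.mem_prod, mem_coe, mem_range, mem_powerset]
      exact ⟨by omega, filter_subset _ _⟩
    · refine (e.trans ?_).le
      refine Eq.trans ?_ (g_app k _ (toC z.1)).symm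
      refine sum_congr rfl fun j hj => congrArg (w k j * ·) ?_
      have : j < K + 1 := by have := mem_range.1 hj; omega
      show |toC z.1 j| = _
      by_cases c : 0 ≤ toC z.1 j
      · simp [c, this, abs_of_nonneg c]
      · simp [c, abs_of_neg (not_le.1 c)]
  · rintro _ ⟨⟨k, s⟩, -, rfl⟩ z
    refine (g_app k s (toC z.1)).trans_le (le_trans (sum_le_sum fun j _ =>
      mul_le_mul_of_nonneg_left ?_ (w_nonneg k j)) (P_le_N k (toC z.1)))
    split_ifs
    · rw [one_mul]; exact le_abs_self _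
    · rw [neg_one_mul]; exact neg_le_abs _

lemma normX (x : Y) (h0 : toC x 0 = 1) (h : ∀ j, |toC x (j + 1)| = a j) : ‖x‖ = 1 := by
  have hD : ∀ j, D (toC x) j = 0 := fun j => by rw [D, h, h0]; simp
  refine le_antisymm (N_le fun k => ?_) ?_
  · rcases k with _ | k
    · rw [P_zero, h0]; simp
    · rw [P_succ, h0]; simp [q, hD]
  · have := P_le_N 0 (toC x)
    rwa [P_zero, h0, abs_one] at this

lemma extX (x : Y) (h0 : toC x 0 = 1) (h : ∀ j, |toC x (j + 1)| = a j) (v : Y) (h1 : ‖x + v‖ ≤ 1)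
    (h2 : ‖x - v‖ ≤ 1) : v = 0 := by
  have e1 : ∀ j, toC (x + v) j = toC x j + toC v j := fun j => rfl
  have e2 : ∀ j, toC (x - v) j = toC x j - toC v j := fun j => rfl
  have v0 : toC v 0 = 0 := by
    have a1 := (P_le_N 0 _).trans h1
    have a2 := (P_le_N 0 _).trans h2
    rw [P_zero] at a1 a2
    rw [e1, h0, abs_le] at a1
    rw [e2, h0, abs_le] at a2
    linarith
  have : ∀ k, toC v (k + 1) = 0 := by
    intro k
    induction k using Nat.strong_induction_on with
    | _ k ih =>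
      have a1 := (P_le_N (k + 1) _).trans h1
      have a2 := (P_le_N (k + 1) _).trans h2
      rw [P_succ, q, sum_eq_zero fun j hj => by
        rw [D, e1, e1, ih j (mem_range.1 hj), v0, h0, add_zero, h]; simp, D, e1, e1, v0, h0] at a1
      rw [P_succ, q, sum_eq_zero fun j hj => by
        rw [D, e2, e2, ih j (mem_range.1 hj), v0, h0, sub_zero, h]; simp, D, e2, e2, v0, h0] at a2
      simp only [add_zero, sub_zero, abs_one, zero_add, mul_one] at a1 a2
      have a3 := h k
      generalize toC x (k + 1) = s at *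
      generalize toC v (k + 1) = t at *
      cases abs_cases s <;> cases abs_cases (s + t) <;> cases abs_cases (s - t) <;> linarith
  refine cext (x := toC v) fun n => ?_
  rcases n with _ | n
  exacts [v0, this n]

lemma decomp {Z : Type} [NormedAddCommGroup Z] [NormedSpace ℝ Z] [CompleteSpace Z] (x : Z)
    (hx : ∀ v, ‖x + v‖ ≤ 1 → ‖x - v‖ ≤ 1 → v = 0) (u : ℕ → Z)
    (h1 : Tendsto (fun n => ∑ i ∈ range n, u i) atTop (𝓝 x)) (h2 : HasSum (fun i => ‖u i‖) 1)
    (i : ℕ) : u i = ‖u i‖ • x := by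
  have h3 : HasSum u x := by
    have := (Summable.of_norm h2.summable).hasSum
    rwa [tendsto_nhds_unique this.tendsto_sum_nat h1] at this
  have h4 : ‖x - u i‖ ≤ 1 - ‖u i‖ :=
    (hasSum_ite_sub_hasSum h3 i).norm_le_of_bounded (hasSum_ite_sub_hasSum h2 i) fun n => by
      split_ifs <;> simp
  set l := ‖u i‖ with hl
  have l0 : 0 ≤ l := norm_nonneg _
  have l1 : l ≤ 1 := by linarith [norm_nonneg (x - u i)]
  have key : ∀ s t : ℝ, 0 ≤ s → 0 ≤ t → ‖s • u i + t • (x - u i)‖ ≤ s * l + t * (1 - l) := by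
    intro s t hs ht
    refine (norm_add_le _ _).trans ?_
    rw [norm_smul, norm_smul, Real.norm_of_nonneg hs, Real.norm_of_nonneg ht]
    exact add_le_add le_rfl (mul_le_mul_of_nonneg_left h4 ht)
  refine sub_eq_zero.1 (hx _ ?_ ?_)
  · have := key (2 - l) (1 - l) (by linarith) (by linarith)
    rw [show (2 - l) • u i + (1 - l) • (x - u i) = x + (u i - l • x) by module] at this
    linarith
  · have := key l (1 + l) l0 (by linarith)
    rw [show l • u i + (1 + l) • (x - u i) = x - (u i - l • x) by module] at this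
    linarith

noncomputable def sg (j : ℕ) (ω : ℝ) : ℝ := if ω < ((Denumerable.eqv ℚ).symm j : ℚ) then 1 else -1

lemma sg_abs (j : ℕ) (ω : ℝ) : |sg j ω * a j| = a j := by
  unfold sg
  split_ifs <;> simp [abs_of_pos (a_pos j)]

lemma a_lim : Tendsto a atTop (𝓝 0) :=
  (tendsto_pow_atTop_nhds_zero_of_lt_one (by norm_num) (by norm_num)).comp (tendsto_add_atTop_nat 2)

noncomputable def f (ω : ℝ) : Y :=
  (⟨⟨fun n => Nat.casesOn n 1 fun j => sg j ω * a j, continuous_of_discreteTopology⟩, by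
    rw [cocompact_eq_atTop, ← tendsto_add_atTop_iff_nat 1, tendsto_zero_iff_abs_tendsto_zero]
    exact a_lim.congr fun j => (sg_abs j ω).symm⟩ : C0)

lemma f0 (ω : ℝ) : toC (f ω) 0 = 1 := rfl
lemma f1 (ω : ℝ) (j : ℕ) : toC (f ω) (j + 1) = sg j ω * a j := rfl

lemma f_inj : Function.Injective f := by
  have : ∀ x y, x < y → f x ≠ f y := fun x y h e => by
    obtain ⟨r, h1, h2⟩ := exists_rat_btwn h
    have h3 := f1 x (Denumerable.eqv ℚ r)
    rw [e, f1, sg, sg, Equiv.symm_apply_apply, if_pos h1, if_neg (not_lt.2 h2.le)] at h3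
    linarith [a_pos (Denumerable.eqv ℚ r)]
  intro x y e
  rcases lt_trichotomy x y with h | h | h
  exacts [absurd e (this x y h), h, absurd e.symm (this y x h)]

noncomputable def EY (n : ℕ) : Y := MP_7aa09c_an.E n
noncomputable def evY (n : ℕ) : Y →L[ℝ] ℝ := ev n ∘L eqv.toContinuousLinearMap
lemma evY_app (n : ℕ) (y : Y) : evY n y = toC y n := rfl
lemma evY_E (n k : ℕ) : evY k (EY n) = if k = n then 1 else 0 := MP_7aa09c_an.E_app n k

open MeasureTheory

lemma f_meas : StronglyMeasurable f := by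
  refine stronglyMeasurable_of_tendsto atTop
    (f := fun n ω => EY 0 + ∑ j ∈ range n, (sg j ω * a j) • EY (j + 1)) (fun n => ?_)
    (tendsto_pi_nhds.2 fun ω => ?_)
  · refine stronglyMeasurable_const.add (Finset.stronglyMeasurable_fun_sum _ fun j _ => ?_)
    exact ((Measurable.ite measurableSet_Iio measurable_const measurable_const).mul_const
      _).stronglyMeasurable.smul_const _
  · rw [tendsto_iff_norm_sub_tendsto_zero]
    have h3 : Tendsto (fun n => 3 * a n) atTop (𝓝 0) := by simpa using a_lim.const_mul 3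
    refine squeeze_zero (fun n => norm_nonneg _) (fun n => N_le fun k => (P_le k _).trans ?_) h3
    refine mul_le_mul_of_nonneg_left (nle _ (a_pos n).le fun k => ?_) (by norm_num)
    rw [← evY_app, map_sub, map_add, map_sum]
    simp only [map_smul, evY_E, smul_eq_mul, mul_ite, mul_one, mul_zero]
    rcases k with _ | k
    · simp [evY_app, f0, (a_pos n).le]
    · simp only [evY_app, f1, add_left_inj, sum_ite_eq, mem_range, Nat.succ_ne_zero, if_false,
        zero_add]
      split_ifs with c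
      · simp [(a_pos n).le]
      · rw [zero_sub, abs_neg, sg_abs]; exact a_anti (not_lt.1 c)

lemma f_norm (ω : ℝ) : ‖f ω‖ = 1 := normX _ (f0 ω) fun j => sg_abs j ω

lemma main (μ : Measure ℝ) [IsProbabilityMeasure μ] [NullSingletonClass μ] (g : ℕ → ℝ → ℝ) (y : ℕ → Y)
    (hg : ∀ i, Integrable (g i) μ)
    (hs : ∀ᵐ ω ∂μ, Tendsto (fun n => ∑ i ∈ range n, g i ω • y i) atTop (𝓝 (f ω)))
    (hn : HasSum (fun i => (∫ ω, |g i ω| ∂μ) * ‖y i‖) (∫ ω, ‖f ω‖ ∂μ)) : False := by
  simp only [f_norm, integral_const, probReal_univ, smul_eq_mul, mul_one] at hn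
  have hi : ∀ i, Integrable (fun ω => ‖g i ω • y i‖) μ := fun i => ((hg i).smul_const _).norm
  have hm : ∀ i, AEMeasurable (fun ω => ENNReal.ofReal ‖g i ω • y i‖) μ := fun i =>
    (hi i).aemeasurable.ennreal_ofReal
  have h1 : ∫⁻ ω, ∑' i, ENNReal.ofReal ‖g i ω • y i‖ ∂μ = 1 := by
    rw [lintegral_tsum hm, ← ENNReal.ofReal_one, ← hn.tsum_eq,
      ENNReal.ofReal_tsum_of_nonneg (fun i => mul_nonneg (integral_nonneg fun _ => abs_nonneg _)
        (norm_nonneg _)) hn.summable]
    refine tsum_congr fun i => ?_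
    rw [← ofReal_integral_eq_lintegral_ofReal (hi i) (Eventually.of_forall fun _ => norm_nonneg _),
      ← integral_mul_const]
    simp only [norm_smul, Real.norm_eq_abs]
  have h2 : (fun _ => (1 : ENNReal)) ≤ᵐ[μ] fun ω => ∑' i, ENNReal.ofReal ‖g i ω • y i‖ := by
    filter_upwards [hs] with ω hω
    have := (ENNReal.continuous_ofReal.tendsto _).comp hω.norm
    rw [f_norm, ENNReal.ofReal_one] at this
    refine le_of_tendsto' this fun n => le_trans ?_ (ENNReal.sum_le_tsum (range n))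
    rw [← ENNReal.ofReal_sum_of_nonneg fun i _ => norm_nonneg _]
    exact ENNReal.ofReal_le_ofReal (norm_sum_le _ _)
  have h3 := ae_eq_of_ae_le_of_lintegral_le h2 (by simp) (AEMeasurable.ennreal_tsum hm)
    (by rw [h1]; simp)
  have h4 : ∀ᵐ ω ∂μ, ω ∈ f ⁻¹' Set.range fun i => (evY 0 (y i))⁻¹ • y i := by
    filter_upwards [hs, h3] with ω hω h
    have b1 : HasSum (fun i => ‖g i ω • y i‖) 1 := by
      have := ENNReal.hasSum_toReal (f := fun i => ENNReal.ofReal ‖g i ω • y i‖)
        (by rw [← h]; simp)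
      rw [← ENNReal.tsum_toReal_eq (fun _ => ENNReal.ofReal_ne_top), ← h] at this
      simpa only [ENNReal.toReal_ofReal (norm_nonneg _), ENNReal.toReal_one] using this
    obtain ⟨i, hi⟩ : ∃ i, ‖g i ω • y i‖ ≠ 0 := by
      by_contra c
      push Not at c
      simp only [c] at b1
      exact zero_ne_one (hasSum_zero.unique b1)
    have b2 := decomp _ (extX _ (f0 ω) fun j => sg_abs j ω) _ hω b1 i
    have b3 := congrArg (evY 0) b2
    rw [map_smul, map_smul, evY_app 0 (f ω), f0, smul_eq_mul, smul_eq_mul, mul_one] at b3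
    rw [← b3] at b2 hi
    have b4 := mul_ne_zero_iff.1 hi
    refine ⟨i, ?_⟩
    rw [mul_smul] at b2
    have b5 := smul_right_injective Y b4.1 b2
    exact (inv_smul_eq_iff₀ b4.2).2 b5
  have h5 := ((Set.countable_range fun i => (evY 0 (y i))⁻¹ • y i).preimage_of_injOn
    (f := f) f_inj.injOn).ae_notMem μ
  obtain ⟨ω, c1, c2⟩ := (h4.and h5).exists
  exact c2 c1

end Pool.Agent.H.MP_ace873_an
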